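import Pool.Agent.V1138.AT.Moeb
import Pool.Agent.Y152.RP.Tor

/-!
# MP_b7926e_nt: Zilber's conjecture for all but finitely many members with parameters in the orbits of
the roots of unity under the modular group, of one-parameter families of subvarieties of tori

**Families.** Let `A_1, …, A_m ⊂ ℤ^n` be arbitrary finite nonempty sets of exponents, `K ⊂ ℂ` a
field, and let `c_jβ ∈ K[t]` be nonzero polynomials, `β ∈ A_j`. For `t ∈ ℂ` let
`X_t ⊂ (ℂ^×)^n` be the algebraic set defined by the Laurent polynomials
`f_j = ∑_β c_jβ(t) x^β`, `j ≤ m` (`member`). Every one-parameter family of subvarieties of the torus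
is of this form.

**Tropicalization.** For a rational number `α` the tropicalization of the family at `t = α` is the set
`Trop_α` of the `w ∈ ℚ^n` such that for all `j` the minimum of the numbers
`ord_α (c_jβ) + β · w`, `β ∈ A_j`, is attained at least twice.

**Parameters.** The parameters are the numbers `t = (a + b ζ) / (c + d ζ)` with integers `a, b, c, d`,
`a d - b c ≠ 0`, and roots of unity `ζ` of any order, such that every prime number `p > R` which divides
the determinant `a d - b c` divides exactly one of the columns `(a, c)` and `(b, d)`
(`IsMoebiusValue R`); `R` is any given number. They contain the orbits of all roots of unity under the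
modular group, `t = g (ζ)` with `g ∈ PSL_2 (ℤ)` or `g ∈ PGL_2 (ℤ[1/R])` (the condition on the prime
numbers is empty), more generally the numbers `t = g (q ζ)` with such `g` and any rational number
`q ≠ 0`, and the numbers `t = a + b ζ` with `a` rational and `b ≠ 0` an integer (theorem
`Pool.Agent.V1138.AT.moeb_of_tr`), in particular all rational numbers. Neither the degree nor the
height of `t` is bounded, and `t` does not belong to a fixed finitely generated field.

**Theorem.** Let `α_1, …, α_M`, `M ≥ N + 4`, be different rational numbers, and suppose that no
linear subspace of `ℚ^n` of dimension less than `r` meets `N` of the sets `Trop_{α_l}`. Then for all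
but finitely many of these parameters `t` the set `X_t` has no atypical intersection with the torsion cosets, and
more generally with the cosets `η H` of all algebraic subgroups `H` of the torus by all points `η` whose coordinates are units of
the integral closure of `ℤ[Γ]` in `ℂ`, where `Γ` is any given finite subset of `K` (`Γ = ∅`:
`η` has coordinates which are algebraic units): every irreducible subset of `X_t ∩ η H` has dimension
at most `dim H - r`. In particular (`H` the torus) all components of `X_t` have dimension at most
`n - r`, and `X_t` does not meet `η H` if `dim H < r`; so the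
components `Y` of `X_t` of dimension `n - r` have no atypical subvarieties, `Atyp(Y) = ∅`.

The general position condition
holds for almost all systems of orders; for complete intersections
`m = r` see `Pool.Agent.Y152.RP.Tor.general_position`. The families, the condition and the criterion
are those of the starting files `MP_c95b3b_ag.TropicallyGenericFamilies` (transcendental parameters
`t`, and for `N + 2 d ≤ M` algebraic parameters of degree at most `d`) and
`MP_c95b3b_ag.RadicalMembers` (numbers `t` with a rational power, roots of unity).

For the parameters `a + b ζ` alone three instead of four additional degenerate members are enough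
(theorem `Pool.Agent.V1138.AT.finite_badA`).

**The arithmetic** (`Pool.Agent.V1138.AT`). Let `ζ` be of order `n`, `α = u / v` one of the `α_l`, and
`U = u c - v a`, `V = v b - u d`. A prime factor `p > R` of the resultant of `U - V X` and the
cyclotomic polynomial `Φ_n` divides the (homogenized) value at `α` of the minimal polynomial of `t`, since
`a + b X` and `c + d X` have no common zero `≠ 0` modulo `p`. If `n ≥ N (D)` and `U, V ≠ 0`, `|U| ≠ |V|`
then this resultant has a prime factor larger than `D` (theorem `AT.big`): up to the factor
`gcd (U, V) ^ φ (n)` it is at least `3 ^ ((φ (n) - 1) / 2)` by the inequality between the arithmetic and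
the geometric mean, and its part at the primes `p ≤ D` divides `D!`, since it is not divisible by `p²`
for `n > D²`. The bound `N (D)` does not depend on `a, b, c, d`. The four exceptional cases, `α` the
image of `0`, `∞`, `1` or `-1` under the transformation, are the reason for four additional
members. For the finitely many `n < N (D)`, if the values at three different `α` have no prime factor
larger than `D` then the numbers `(α - t) / (α' - t)` are `S`-units, and there are only finitely many
such `t` by the unit equation.
-/

set_option autoImplicit false

namespace Pool.Agent.Results.MP_b7926e_nt.MoebiusOrbits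

open Pool.Agent.Y152.RP.Tor (member order Trop InGeneralPosition NoAtypical)

/-- `t = (a + b ζ) / (c + d ζ)` with integers `a, b, c, d`, `a d - b c ≠ 0`, and a root of unity
`ζ`, such that every prime number `p > R` which divides `a d - b c` divides exactly one of the
columns `(a, c)` and `(b, d)`. -/
def IsMoebiusValue (R : ℕ) (t : ℂ) : Prop :=
  ∃ (a b c d : ℤ) (ζ : ℂ), a * d - b * c ≠ 0 ∧ (∃ n : ℕ, 0 < n ∧ ζ ^ n = 1) ∧
    (c : ℂ) + d * ζ ≠ 0 ∧ t = (a + b * ζ) / (c + d * ζ) ∧
    ∀ p : ℕ, p.Prime → R < p → (p : ℤ) ∣ a * d - b * c →
      ((p : ℤ) ∣ a ∧ (p : ℤ) ∣ c ∧ ¬ ((p : ℤ) ∣ b ∧ (p : ℤ) ∣ d)) ∨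
      ((p : ℤ) ∣ b ∧ (p : ℤ) ∣ d ∧ ¬ ((p : ℤ) ∣ a ∧ (p : ℤ) ∣ c))

/-- One-parameter families of subvarieties of the torus whose tropicalizations at sufficiently many
rational parameters are in general position: only finitely many of the members with parameters
`(a + b ζ) / (c + d ζ)` have an atypical intersection. -/
theorem result {n m M : ℕ} {K : Subfield ℂ} (r N : ℕ) (A : Fin m → Finset (Fin n → ℤ))
    (hA : ∀ j, (A j).Nonempty) (c : Fin m → (Fin n → ℤ) → Polynomial K)
    (hc : ∀ j, ∀ β ∈ A j, c j β ≠ 0) (α : Fin M → ℚ) (hα : Function.Injective α)
    (hgen : InGeneralPosition r N fun l => Trop A (order c (α l)))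
    (Γ : Set ℂ) (hΓ : Γ.Finite) (hΓK : Γ ⊆ K) (R : ℕ) (hM : N + 4 ≤ M) :
    {t : ℂ | IsMoebiusValue R t ∧ ¬ NoAtypical r Γ (member A c t)}.Finite :=
  Pool.Agent.Y152.RP.Tor.family r N A hA c hc α hgen Γ hΓ hΓK
    {t : ℂ | IsMoebiusValue R t} fun D => Pool.Agent.V1138.AT.finite_badM R D hM α hα

end Pool.Agent.Results.MP_b7926e_nt.MoebiusOrbits
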