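import Pool.Agent.Results.MP_b7926e_nt.AlmostAllSUnitTranslates
import Pool.Agent.V11300.PA.Classes

/-!
# MP_b7926e_nt: Zilber's conjecture for ALL translates of an arbitrary subvariety by points whose matrix of exponents is in
the residue class modulo `q ^ f` of almost every `q`-adic matrix

Let `V` be an arbitrary irreducible subvariety of the torus `(ℂ^×)^n`. There is a number `K`, depending only on `V`, such that
for all `N`, `t` with `K t < N`, all primes `q` and all `κ > 0` we have the following, with `s = max (0, n N + n - 1 - t)`.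

(1) Let `p_1, …, p_N` be different prime numbers. For all `N × n` matrices `α` over `ℤ_q` outside a set of Hausdorff
dimension at most `κ s` and for all large `f`, NONE of the translates of `V` by the points with the coordinates
`∏_i p_i ^ e_ij`, where `e` is an integral matrix with `|e_ij| ≤ q ^ (κ f)` and `e ≡ α mod q ^ f`, has an atypical subvariety.

(2) Let `v_1, …, v_N` be arbitrary absolute values of the field `ℂ`, archimedean or not. For all `N × n` matrices `α` over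
`ℤ_q` outside a set of Hausdorff dimension at most `κ s`, all `B` and all large `f`, ALL complex points `g` of the torus with
`|log v_i(g_j) - e_ij| ≤ B` for all `i`, `j`, for some integral matrix `e` with `|e_ij| ≤ q ^ (κ f)` and `e ≡ α mod q ^ f`,
have the property that the translate `g V` has only typical intersections with all cosets `η H` for which
`|log v_i(η_j)| ≤ B` for all `i`, `j`; in particular it has no atypical subvariety.

(The space of the matrices over `ℤ_q` has dimension `n N`.) The proof combines the starting result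
`AlmostAllSUnitTranslates` with a covering argument. The definitions are those of that file.
-/

set_option autoImplicit false

namespace Pool.Agent.Results.MP_b7926e_nt.TranslatesInResidueClasses

open MeasureTheory
open Pool.Agent.Results.MP_b7926e_nt.NoAtypical (coset idealOf dim mem_idealOf NoAtypicalSubvariety)
open Pool.Agent.Results.MP_b7926e_nt.AlmostAllSUnitTranslates

/-- The exponent `max (0, n N + n - 1 - t)`. -/
noncomputable def expo (n N t : ℕ) : ℝ := max 0 ((n : ℝ) * N + n - 1 - t)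

theorem card_le {n N t c x : ℕ} (hn : 1 ≤ n) {R : ℕ}
    (h : x * (2 * R + 1) ^ t ≤ c * (2 * R + 1) ^ (n * N + n - 1)) :
    (x : ℝ) ≤ c * (2 * (R : ℝ) + 1) ^ expo n N t := by
  have hR0 : (0 : ℝ) < 2 * (R : ℝ) + 1 := by positivity
  have hR1 : (1 : ℝ) ≤ 2 * (R : ℝ) + 1 := by
    have : (0 : ℝ) ≤ R := Nat.cast_nonneg R
    linarith
  have h3 : (x : ℝ) * (2 * (R : ℝ) + 1) ^ t ≤ c * (2 * (R : ℝ) + 1) ^ (n * N + n - 1) := by
    exact_mod_cast h
  have e1 : ((n * N + n - 1 : ℕ) : ℝ) = (n : ℝ) * N + n - 1 := by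
    rw [Nat.cast_sub (by nlinarith [Nat.zero_le (n * N)])]
    push_cast
    ring
  have h5 : (x : ℝ) ≤ c * ((2 * (R : ℝ) + 1) ^ (n * N + n - 1) / (2 * (R : ℝ) + 1) ^ t) := by
    rw [← mul_div_assoc, le_div_iff₀ (by positivity)]
    exact h3
  refine h5.trans (mul_le_mul_of_nonneg_left ?_ (Nat.cast_nonneg c))
  rw [← Real.rpow_natCast, ← Real.rpow_natCast, ← Real.rpow_sub hR0, e1]
  exact Real.rpow_le_rpow_of_exponent_le hR1 (le_max_right _ _)

/-- the bound of the counts by a multiple of `T ^ expo` -/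
theorem expo_le (c n N t : ℕ) {R T : ℕ} (hT : 1 ≤ T) (hRT : R ≤ T) :
    (c : ℝ) * (2 * (R : ℝ) + 1) ^ expo n N t ≤ (c : ℝ) * 3 ^ expo n N t * (T : ℝ) ^ expo n N t := by
  have hs0 : 0 ≤ expo n N t := le_max_left _ _
  have hT1 : (1 : ℝ) ≤ T := by exact_mod_cast hT
  have hRT' : (R : ℝ) ≤ T := by exact_mod_cast hRT
  rw [mul_assoc, ← Real.mul_rpow (by norm_num) (by linarith)]
  refine mul_le_mul_of_nonneg_left ?_ (Nat.cast_nonneg c)
  exact Real.rpow_le_rpow (by positivity) (by linarith) hs0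

/-- integral matrices in residue classes, for a set of matrices with few elements in `[-R, R]` -/
theorem integral {n N t c : ℕ} (hn : 1 ≤ n) (Q : (Fin N → Fin n → ℤ) → Prop)
    (h : ∀ R : ℕ, 1 ≤ R → Nat.card {e : Fin N → Fin n → ℤ // (∀ i j, |e i j| ≤ R) ∧ ¬ Q e} * (2 * R + 1) ^ t ≤
      c * (2 * R + 1) ^ (n * N + n - 1)) (q : ℕ) [Fact q.Prime] {κ : ℝ} (hκ : 0 < κ) :
    ∃ E : Set (Fin N × Fin n → ℤ_[q]), dimH E ≤ ENNReal.ofReal (κ * expo n N t) ∧
      ∀ α : Fin N × Fin n → ℤ_[q], α ∉ E → ∃ f₀ : ℕ, ∀ f : ℕ, f₀ ≤ f → ∀ e : Fin N → Fin n → ℤ,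
        (∀ i j, |(e i j : ℝ)| ≤ (q : ℝ) ^ (κ * f)) → (∀ i j, (q : ℤ_[q]) ^ f ∣ (e i j : ℤ_[q]) - α (i, j)) → Q e := by
  have hs0 : 0 ≤ expo n N t := le_max_left _ _
  obtain ⟨E, hE, hmain⟩ := Pool.Agent.V11300.PA.classes_int q (ι := Fin N × Fin n) hs0 hκ
    (fun _ _ => {m : Fin N × Fin n → ℤ | ¬ Q fun i j => m (i, j)}) (fun _ => (c : ℝ) * 3 ^ expo n N t) (by
      intro _ _ T hT
      have hfin : {m : Fin N × Fin n → ℤ | m ∈ {m : Fin N × Fin n → ℤ | ¬ Q fun i j => m (i, j)} ∧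
          ∀ i, |m i| ≤ (T : ℤ)}.Finite := by
        apply Set.Finite.subset (Set.Finite.pi' fun _ : Fin N × Fin n => Set.finite_Icc (-(T : ℤ)) T)
        intro m hm i
        exact abs_le.1 (hm.2 i)
      refine ⟨hfin, ?_⟩
      have hfin2 : Finite {e : Fin N → Fin n → ℤ // (∀ i j, |e i j| ≤ (T : ℤ)) ∧ ¬ Q e} := by
        have h1 : {e : Fin N → Fin n → ℤ | (∀ i j, |e i j| ≤ (T : ℤ)) ∧ ¬ Q e}.Finite := by
          apply Set.Finite.subset (Set.Finite.pi' fun _ : Fin N =>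
            Set.Finite.pi' fun _ : Fin n => Set.finite_Icc (-(T : ℤ)) T)
          intro e he i j
          exact abs_le.1 (he.1 i j)
        exact h1.to_subtype
      have h1 : {m : Fin N × Fin n → ℤ | m ∈ {m : Fin N × Fin n → ℤ | ¬ Q fun i j => m (i, j)} ∧
          ∀ i, |m i| ≤ (T : ℤ)}.ncard ≤ Nat.card {e : Fin N → Fin n → ℤ // (∀ i j, |e i j| ≤ (T : ℤ)) ∧ ¬ Q e} := by
        rw [← Nat.card_coe_set_eq]
        refine Nat.card_le_card_of_injective (fun m => ⟨fun k j => m.1 (k, j), fun k j => m.2.2 (k, j), m.2.1⟩) ?_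
        intro m m' hmm
        refine Subtype.ext (funext fun i => ?_)
        have h2 := congrArg Subtype.val hmm
        exact congrFun (congrFun h2 i.1) i.2
      have h2 := card_le hn (h T hT)
      exact (((Nat.cast_le (α := ℝ)).2 h1).trans h2).trans (expo_le c n N t hT le_rfl))
  refine ⟨E, hE, fun α hα => ?_⟩
  obtain ⟨f₀, hf⟩ := hmain α hα 0
  refine ⟨f₀, fun f hff e he hd => ?_⟩
  have h1 := hf f hff (fun i => e i.1 i.2) (fun i => he i.1 i.2) fun i => hd i.1 i.2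
  exact not_not.1 h1

/-- the same for countably many exceptional sets of integral matrices which depend on `R` -/
theorem integralR {n N t : ℕ} (hn : 1 ≤ n) (c : ℕ → ℕ) (E : ℕ → ℕ → Finset (Fin N → Fin n → ℤ))
    (h : ∀ b R : ℕ, 1 ≤ R → (E b R).card * (2 * R + 1) ^ t ≤ c b * (2 * R + 1) ^ (n * N + n - 1))
    (q : ℕ) [hq : Fact q.Prime] {κ : ℝ} (hκ : 0 < κ) :
    ∃ F : Set (Fin N × Fin n → ℤ_[q]), dimH F ≤ ENNReal.ofReal (κ * expo n N t) ∧
      ∀ α : Fin N × Fin n → ℤ_[q], α ∉ F → ∀ b : ℕ, ∃ f₀ : ℕ, ∀ f : ℕ, f₀ ≤ f → ∀ e : Fin N → Fin n → ℤ,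
        (∀ i j, (q : ℤ_[q]) ^ f ∣ (e i j : ℤ_[q]) - α (i, j)) → e ∉ E b ⌊(q : ℝ) ^ (κ * f)⌋₊ := by
  have hs0 : 0 ≤ expo n N t := le_max_left _ _
  have hq1 : (1 : ℝ) < q := by exact_mod_cast hq.out.one_lt
  have hR1 : ∀ f : ℕ, 1 ≤ ⌊(q : ℝ) ^ (κ * f)⌋₊ := fun f => by
    refine Nat.le_floor ?_
    rw [Nat.cast_one]
    exact Real.one_le_rpow hq1.le (by positivity)
  obtain ⟨F, hF, hmain⟩ := Pool.Agent.V11300.PA.general (M := Fin N × Fin n → ℤ_[q]) (Q := ℕ × (Fin N → Fin n → ℤ))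
    (fun t => fun i => (t.2 i.1 i.2 : ℤ_[q])) (fun t => t.1) hq1 (s := expo n N t) (κ := κ) hs0 hκ
    (fun b f => {t | t.1 = ⌊(q : ℝ) ^ (κ * f)⌋₊ ∧ t.2 ∈ E b ⌊(q : ℝ) ^ (κ * f)⌋₊}) (fun b => (c b : ℝ) * 3 ^ expo n N t) (by
      intro b f T hT
      obtain ⟨R, hR⟩ : ∃ R : ℕ, R = ⌊(q : ℝ) ^ (κ * f)⌋₊ := ⟨_, rfl⟩
      have hR' : 1 ≤ R := by rw [hR]; exact hR1 f
      rw [← hR]
      rcases le_or_gt R T with hRT | hRT
      · have hsub : {x : ℕ × (Fin N → Fin n → ℤ) | x ∈ {x : ℕ × (Fin N → Fin n → ℤ) | x.1 = R ∧ x.2 ∈ E b R} ∧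
            x.1 ≤ T} ⊆ (fun e : Fin N → Fin n → ℤ => (R, e)) '' (E b R : Set (Fin N → Fin n → ℤ)) := by
          rintro ⟨R', e⟩ ⟨⟨h1, h2⟩, h3⟩
          simp only at h1 h2 h3
          subst h1
          exact ⟨e, h2, rfl⟩
        have hfin := (E b R).finite_toSet.image (fun e : Fin N → Fin n → ℤ => (R, e))
        refine ⟨hfin.subset hsub, ?_⟩
        have h3 := Set.ncard_le_ncard hsub hfin
        rw [Set.ncard_image_of_injective _ fun x y h => (Prod.mk.inj h).2, Set.ncard_coe_finset] at h3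
        exact (((Nat.cast_le (α := ℝ)).2 h3).trans (card_le hn (h b R hR'))).trans (expo_le (c b) n N t hT hRT)
      · have he : {x : ℕ × (Fin N → Fin n → ℤ) | x ∈ {x : ℕ × (Fin N → Fin n → ℤ) | x.1 = R ∧ x.2 ∈ E b R} ∧
            x.1 ≤ T} = ∅ := by
          ext ⟨R', e⟩
          simp only [Set.mem_ofPred_eq, Set.mem_empty_iff_false, iff_false, not_and, not_le, and_imp]
          intro h1 _
          rw [h1]
          exact hRT
        rw [he]
        refine ⟨Set.finite_empty, ?_⟩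
        rw [Set.ncard_empty, Nat.cast_zero]
        positivity)
  refine ⟨F, hF, fun α hα b => ?_⟩
  obtain ⟨f₀, hf⟩ := hmain α hα b
  refine ⟨f₀, fun f hff e hd hmem => ?_⟩
  refine hf f hff (⌊(q : ℝ) ^ (κ * f)⌋₊, e) (Nat.floor_le (by positivity)) ?_ ⟨rfl, hmem⟩
  rw [dist_pi_le_iff (by positivity)]
  intro i
  rw [dist_eq_norm]
  exact Pool.Agent.V11300.PA.dist_le_of_dvd q (hd i.1 i.2)

/-- **Main result.** -/
theorem result (n : ℕ) (hn : 1 ≤ n) (V : Set (Fin n → ℂ)) (hV : (idealOf V).IsPrime) :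
    ∃ K : ℕ, ∀ N t : ℕ, K * t < N → ∀ (q : ℕ) [Fact q.Prime] (κ : ℝ), 0 < κ →
      (∀ p : Fin N → ℕ, (∀ i, (p i).Prime) → Function.Injective p →
        ∃ E : Set (Fin N × Fin n → ℤ_[q]), dimH E ≤ ENNReal.ofReal (κ * expo n N t) ∧
          ∀ α : Fin N × Fin n → ℤ_[q], α ∉ E → ∃ f₀ : ℕ, ∀ f : ℕ, f₀ ≤ f → ∀ e : Fin N → Fin n → ℤ,
            (∀ i j, |(e i j : ℝ)| ≤ (q : ℝ) ^ (κ * f)) → (∀ i j, (q : ℤ_[q]) ^ f ∣ (e i j : ℤ_[q]) - α (i, j)) →
              NoAtypicalSubvariety (AlmostAllSUnitTranslates.translate (fun j => ∏ i, (p i : ℂ) ^ e i j) V)) ∧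
      (∀ v : Fin N → AbsoluteValue ℂ ℝ,
        ∃ E : Set (Fin N × Fin n → ℤ_[q]), dimH E ≤ ENNReal.ofReal (κ * expo n N t) ∧
          ∀ α : Fin N × Fin n → ℤ_[q], α ∉ E → ∀ B : ℝ, ∃ f₀ : ℕ, ∀ f : ℕ, f₀ ≤ f → ∀ e : Fin N → Fin n → ℤ,
            (∀ i j, |(e i j : ℝ)| ≤ (q : ℝ) ^ (κ * f)) → (∀ i j, (q : ℤ_[q]) ^ f ∣ (e i j : ℤ_[q]) - α (i, j)) →
            ∀ g : Fin n → ℂ, (∀ j, g j ≠ 0) → (∀ i j, |Real.log (v i (g j)) - e i j| ≤ B) →
              NoAtypicalWithin v B (AlmostAllSUnitTranslates.translate g V)) := by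
  obtain ⟨K, hK⟩ := AlmostAllSUnitTranslates.result n V hV
  refine ⟨K, fun N t hNt q _ κ hκ => ?_⟩
  obtain ⟨h1, h2⟩ := hK N t hNt
  refine ⟨fun p hp hpi => ?_, fun v => ?_⟩
  · obtain ⟨c, hc⟩ := h1 p hp hpi
    exact integral hn
      (fun e => NoAtypicalSubvariety (AlmostAllSUnitTranslates.translate (fun j => ∏ i, (p i : ℂ) ^ e i j) V)) hc q hκ
  · have hall : ∀ b : ℕ, ∃ c : ℕ, ∀ R : ℕ, ∃ E : Finset (Fin N → Fin n → ℤ), 1 ≤ R →
        E.card * (2 * R + 1) ^ t ≤ c * (2 * R + 1) ^ (n * N + n - 1) ∧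
        ∀ e : Fin N → Fin n → ℤ, (∀ i j, |e i j| ≤ R) → e ∉ E →
          ∀ g : Fin n → ℂ, (∀ j, g j ≠ 0) → (∀ i j, |Real.log (v i (g j)) - e i j| ≤ (b : ℝ)) →
            NoAtypicalWithin v (b : ℝ) (AlmostAllSUnitTranslates.translate g V) := by
      intro b
      obtain ⟨c, hc⟩ := h2 v (b : ℝ)
      refine ⟨c, fun R => ?_⟩
      by_cases hR : 1 ≤ R
      · obtain ⟨E, hE⟩ := hc R hR
        exact ⟨E, fun _ => hE⟩
      · exact ⟨∅, fun h => absurd h hR⟩
    choose c E hE using hall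
    obtain ⟨F, hF, hmain⟩ := integralR hn c E (fun b R hR => (hE b R hR).1) q hκ
    refine ⟨F, hF, fun α hα B => ?_⟩
    obtain ⟨b, hb⟩ := exists_nat_ge B
    obtain ⟨f₀, hf⟩ := hmain α hα b
    refine ⟨f₀, fun f hff e he hd g hg hgw => ?_⟩
    have hq1 : (1 : ℝ) < q := by exact_mod_cast (Fact.out : q.Prime).one_lt
    have hR1 : 1 ≤ ⌊(q : ℝ) ^ (κ * f)⌋₊ := by
      refine Nat.le_floor ?_
      rw [Nat.cast_one]
      exact Real.one_le_rpow hq1.le (by positivity)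
    have heR : ∀ i j, |e i j| ≤ ((⌊(q : ℝ) ^ (κ * f)⌋₊ : ℕ) : ℤ) := by
      intro i j
      rw [Int.abs_eq_natAbs, Nat.cast_le]
      refine Nat.le_floor ?_
      rw [Nat.cast_natAbs, Int.cast_abs]
      exact he i j
    have h3 := (hE b _ hR1).2 e heR (hf f hff e hd) g hg fun i j => (hgw i j).trans hb
    intro M η hη hηB
    exact h3 M η hη fun i j => (hηB i j).trans hb

end Pool.Agent.Results.MP_b7926e_nt.TranslatesInResidueClasses
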