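import Pool.Agent.Results.MP_b7926e_nt.AlmostAllSUnitTranslates
import Pool.Agent.V11326.WI

/-!
# MP_b7926e_nt: Zilber's conjecture for ALL translates of an arbitrary subvariety by points with given logarithmic
absolute values in typical windows

Let `V` be an arbitrary irreducible subvariety of the torus `(ℂ^×)^n`. There is a number `K`, depending only on `V`, such that
for all `N`, `t` with `K t < N` we have the following. Let `w_0, w_1, … ≥ 1` be a sequence with exponent of convergence at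
most `τ` (for example `w_m = 2 ^ m`, `τ = 0`), `θ < 1` and `s = max (0, n N + n - 1 - t)`.

(1) Let `p_1, …, p_N` be different prime numbers. For all real `N × n` matrices `α` outside a set of Hausdorff dimension at
most `(s + τ) / (1 - θ)`, which has measure zero if `s + τ + n N θ < n N`, and for all large `m`, NONE of the translates of `V`
by the points with the coordinates `∏_i p_i ^ e_ij` with integral `e` with `|e_ij - α_ij w_m| ≤ w_m ^ θ` has an atypical
subvariety.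

(2) Let `v_1, …, v_N` be arbitrary absolute values of the field `ℂ`, archimedean or not, and `θ ≥ 0`. For all real `N × n`
matrices `α` outside a set of Hausdorff dimension at most `(s + τ) / (1 - θ)`, which has measure zero if
`s + τ + n N θ < n N`, all `B` and all large `m`, ALL complex points `g` of the torus with
`|log v_i(g_j) - α_ij w_m| ≤ w_m ^ θ` for all `i`, `j` have the property that the translate `g V` has only typical
intersections with all cosets `η H` for which `|log v_i(η_j)| ≤ B` for all `i`, `j`; in particular it has no atypical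
subvariety.

The proof combines the starting result `AlmostAllSUnitTranslates` (few exceptional integral matrices in `[-R, R]`) with a
covering argument. The definitions are those of that file.
-/

set_option autoImplicit false

namespace Pool.Agent.Results.MP_b7926e_nt.TranslatesInWindows

open MeasureTheory
open Pool.Agent.Results.MP_b7926e_nt.NoAtypical (coset idealOf dim mem_idealOf NoAtypicalSubvariety)
open Pool.Agent.Results.MP_b7926e_nt.AlmostAllSUnitTranslates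

/-- The exponent of convergence of the sequence `v` is at most `τ`: the sum of the `v_n ^ (-p)` converges for all
`p > τ`. -/
def ExpLe (v : ℕ → ℝ) (τ : ℝ) : Prop := ∀ p : ℝ, τ < p → Summable fun n => (v n) ^ (-p)

/-- The exponent `max (0, n N + n - 1 - t)`. -/
noncomputable def expo (n N t : ℕ) : ℝ := max 0 ((n : ℝ) * N + n - 1 - t)

theorem card_le {n N t c x : ℕ} (hn : 1 ≤ n) {R : ℕ}
    (h : x * (2 * R + 1) ^ t ≤ c * (2 * R + 1) ^ (n * N + n - 1)) :
    (x : ℝ) ≤ c * (2 * (R : ℝ) + 1) ^ expo n N t := by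
  have hR0 : (0 : ℝ) < 2 * (R : ℝ) + 1 := by positivity
  have hR1 : (1 : ℝ) ≤ 2 * (R : ℝ) + 1 := by
    have : (0 : ℝ) ≤ R := Nat.cast_nonneg R
    linarith
  have h3 : (x : ℝ) * (2 * (R : ℝ) + 1) ^ t ≤ c * (2 * (R : ℝ) + 1) ^ (n * N + n - 1) := by
    exact_mod_cast h
  have e1 : ((n * N + n - 1 : ℕ) : ℝ) = (n : ℝ) * N + n - 1 := by
    rw [Nat.cast_sub (by nlinarith [Nat.zero_le (n * N)])]
    push_cast
    ring
  have h5 : (x : ℝ) ≤ c * ((2 * (R : ℝ) + 1) ^ (n * N + n - 1) / (2 * (R : ℝ) + 1) ^ t) := by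
    rw [← mul_div_assoc, le_div_iff₀ (by positivity)]
    exact h3
  refine h5.trans (mul_le_mul_of_nonneg_left ?_ (Nat.cast_nonneg c))
  rw [← Real.rpow_natCast, ← Real.rpow_natCast, ← Real.rpow_sub hR0, e1]
  exact Real.rpow_le_rpow_of_exponent_le hR1 (le_max_right _ _)

theorem null {n N t : ℕ} {τ θ : ℝ} {E : Set (Fin N × Fin n → ℝ)} (hτ : 0 ≤ τ) (hθ : θ < 1)
    (hE : dimH E ≤ ENNReal.ofReal ((expo n N t + τ) / (1 - θ))) (hc : expo n N t + τ + n * N * θ < n * N) :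
    volume E = 0 := by
  have hs0 : 0 ≤ expo n N t := le_max_left _ _
  have hcard : (Fintype.card (Fin N × Fin n) : ℝ) = n * N := by
    rw [Fintype.card_prod, Fintype.card_fin, Fintype.card_fin]
    push_cast
    ring
  refine Pool.Agent.V11326.WI.null (c := (n : ℝ) * N - expo n N t) (by rw [hcard]; linarith) hτ hθ ?_
    (by rw [hcard]; linarith)
  rw [hcard]
  have e : (n : ℝ) * N - ((n : ℝ) * N - expo n N t) + τ = expo n N t + τ := by ring
  rw [e]
  exact hE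

/-- integral matrices in windows, for a set of matrices with few elements in `[-R, R]` -/
theorem integral {n N t c : ℕ} (hn : 1 ≤ n) (Q : (Fin N → Fin n → ℤ) → Prop)
    (h : ∀ R : ℕ, 1 ≤ R → Nat.card {e : Fin N → Fin n → ℤ // (∀ i j, |e i j| ≤ R) ∧ ¬ Q e} * (2 * R + 1) ^ t ≤
      c * (2 * R + 1) ^ (n * N + n - 1)) {w : ℕ → ℝ} {τ θ : ℝ} (hw : ∀ m, 1 ≤ w m) (hτ : 0 ≤ τ) (hwτ : ExpLe w τ)
    (hθ : θ < 1) :
    ∃ E : Set (Fin N × Fin n → ℝ), dimH E ≤ ENNReal.ofReal ((expo n N t + τ) / (1 - θ)) ∧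
      (expo n N t + τ + n * N * θ < n * N → volume E = 0) ∧
      ∀ α : Fin N × Fin n → ℝ, α ∉ E → ∃ m₀ : ℕ, ∀ m : ℕ, m₀ ≤ m → ∀ e : Fin N → Fin n → ℤ,
        (∀ i j, |(e i j : ℝ) - α (i, j) * w m| ≤ (w m) ^ θ) → Q e := by
  have hs0 : 0 ≤ expo n N t := le_max_left _ _
  obtain ⟨E, hE, hmain⟩ := Pool.Agent.V11326.WI.box_windows (ι := Fin N × Fin n) hs0
    (fun _ _ => {m : Fin N × Fin n → ℤ | ¬ Q fun i j => m (i, j)}) (fun _ => (c : ℝ) * 3 ^ expo n N t) (by
      intro _ _ T hT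
      have hfin : {m : Fin N × Fin n → ℤ | m ∈ {m : Fin N × Fin n → ℤ | ¬ Q fun i j => m (i, j)} ∧
          ∀ i, |m i| ≤ (T : ℤ)}.Finite := by
        apply Set.Finite.subset (Set.Finite.pi' fun _ : Fin N × Fin n => Set.finite_Icc (-(T : ℤ)) T)
        intro m hm i
        exact abs_le.1 (hm.2 i)
      refine ⟨hfin, ?_⟩
      have hfin2 : Finite {e : Fin N → Fin n → ℤ // (∀ i j, |e i j| ≤ (T : ℤ)) ∧ ¬ Q e} := by
        have h1 : {e : Fin N → Fin n → ℤ | (∀ i j, |e i j| ≤ (T : ℤ)) ∧ ¬ Q e}.Finite := by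
          apply Set.Finite.subset (Set.Finite.pi' fun _ : Fin N =>
            Set.Finite.pi' fun _ : Fin n => Set.finite_Icc (-(T : ℤ)) T)
          intro e he i j
          exact abs_le.1 (he.1 i j)
        exact h1.to_subtype
      have h1 : {m : Fin N × Fin n → ℤ | m ∈ {m : Fin N × Fin n → ℤ | ¬ Q fun i j => m (i, j)} ∧
          ∀ i, |m i| ≤ (T : ℤ)}.ncard ≤ Nat.card {e : Fin N → Fin n → ℤ // (∀ i j, |e i j| ≤ (T : ℤ)) ∧ ¬ Q e} := by
        rw [← Nat.card_coe_set_eq]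
        refine Nat.card_le_card_of_injective (fun m => ⟨fun k j => m.1 (k, j), fun k j => m.2.2 (k, j), m.2.1⟩) ?_
        intro m m' hmm
        refine Subtype.ext (funext fun i => ?_)
        have h2 := congrArg Subtype.val hmm
        exact congrFun (congrFun h2 i.1) i.2
      have h2 := card_le hn (h T hT)
      have hT1 : (1 : ℝ) ≤ T := by exact_mod_cast hT
      calc ({m : Fin N × Fin n → ℤ | m ∈ {m : Fin N × Fin n → ℤ | ¬ Q fun i j => m (i, j)} ∧
            ∀ i, |m i| ≤ (T : ℤ)}.ncard : ℝ)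
          ≤ (Nat.card {e : Fin N → Fin n → ℤ // (∀ i j, |e i j| ≤ (T : ℤ)) ∧ ¬ Q e} : ℝ) := by exact_mod_cast h1
        _ ≤ c * (2 * (T : ℝ) + 1) ^ expo n N t := h2
        _ ≤ c * (3 * (T : ℝ)) ^ expo n N t := by
            refine mul_le_mul_of_nonneg_left ?_ (Nat.cast_nonneg c)
            exact Real.rpow_le_rpow (by positivity) (by linarith) hs0
        _ = (c : ℝ) * 3 ^ expo n N t * (T : ℝ) ^ expo n N t := by
            rw [Real.mul_rpow (by norm_num) (by linarith), mul_assoc]) hw hτ hwτ hθ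
  refine ⟨E, hE, null hτ hθ hE, fun α hα => ?_⟩
  obtain ⟨m₀, hm⟩ := hmain α hα 0
  refine ⟨m₀, fun m hmm e he => ?_⟩
  have h1 := hm m hmm (fun i => e i.1 i.2) fun i => he i.1 i.2
  exact not_not.1 h1

/-- real matrices in windows, for exceptional sets of integral matrices which depend on `R` -/
theorem real {n N t c : ℕ} (hn : 1 ≤ n) (E : ℕ → Finset (Fin N → Fin n → ℤ))
    (h : ∀ R : ℕ, 1 ≤ R → (E R).card * (2 * R + 1) ^ t ≤ c * (2 * R + 1) ^ (n * N + n - 1))
    {w : ℕ → ℝ} {τ θ : ℝ} (hw : ∀ m, 1 ≤ w m) (hτ : 0 ≤ τ) (hwτ : ExpLe w τ) (hθ0 : 0 ≤ θ) (hθ : θ < 1) :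
    ∃ F : Set (Fin N × Fin n → ℝ), dimH F ≤ ENNReal.ofReal ((expo n N t + τ) / (1 - θ)) ∧
      ∀ α : Fin N × Fin n → ℝ, α ∉ F → ∃ m₀ : ℕ, ∀ m : ℕ, m₀ ≤ m → ∀ x : Fin N → Fin n → ℝ,
        (∀ i j, |x i j - α (i, j) * w m| ≤ (w m) ^ θ) →
          ∃ (R : ℕ) (e : Fin N → Fin n → ℤ), 1 ≤ R ∧ (∀ i j, |e i j| ≤ R) ∧ e ∉ E R ∧ ∀ i j, |x i j - e i j| ≤ 1 := by
  have hs0 : 0 ≤ expo n N t := le_max_left _ _
  obtain ⟨F, hF, hmain⟩ := Pool.Agent.V11326.WI.windowsKC (E := Fin N × Fin n → ℝ)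
    (fun j m => (E ⌈((j : ℝ) + 2) * w m⌉₊ : Set (Fin N → Fin n → ℤ)))
    (fun _ _ e => fun i : Fin N × Fin n => (1 / 2 : ℝ) * (e i.1 i.2 : ℝ)) (s := expo n N t) hw hτ hwτ hs0 hθ (by
      intro j A ε hε
      refine ⟨c * (2 * (j : ℝ) + 7) ^ expo n N t, 0, fun m _ => ?_⟩
      have hm1 := hw m
      have hj : (0 : ℝ) ≤ j := Nat.cast_nonneg j
      obtain ⟨R, hR⟩ : ∃ R : ℕ, R = ⌈((j : ℝ) + 2) * w m⌉₊ := ⟨_, rfl⟩
      have hR1 : 1 ≤ R := by
        rw [hR]
        exact Nat.one_le_ceil_iff.2 (by positivity)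
      have hR2 : (R : ℝ) < ((j : ℝ) + 2) * w m + 1 := by
        rw [hR]
        exact Nat.ceil_lt_add_one (by positivity)
      rw [← hR]
      have hsub : {e : Fin N → Fin n → ℤ | e ∈ (E R : Set (Fin N → Fin n → ℤ)) ∧
          ‖(fun i : Fin N × Fin n => (1 / 2 : ℝ) * (e i.1 i.2 : ℝ))‖ ≤ ((A : ℝ) + 1) * w m} ⊆
          (E R : Set (Fin N → Fin n → ℤ)) := fun e he => he.1
      refine ⟨(E R).finite_toSet.subset hsub, ?_⟩
      have h1 := Set.ncard_le_ncard hsub (E R).finite_toSet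
      rw [Set.ncard_coe_finset] at h1
      refine ((Nat.cast_le (α := ℝ)).2 h1).trans ((card_le hn (h R hR1)).trans ?_)
      calc (c : ℝ) * (2 * (R : ℝ) + 1) ^ expo n N t ≤ c * ((2 * (j : ℝ) + 7) * w m) ^ expo n N t := by
            refine mul_le_mul_of_nonneg_left ?_ (Nat.cast_nonneg c)
            refine Real.rpow_le_rpow (by positivity) ?_ hs0
            nlinarith
        _ = c * (2 * (j : ℝ) + 7) ^ expo n N t * (w m) ^ expo n N t := by
            rw [Real.mul_rpow (by positivity) (by linarith), mul_assoc]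
        _ ≤ c * (2 * (j : ℝ) + 7) ^ expo n N t * (w m) ^ (expo n N t + ε) := by
            refine mul_le_mul_of_nonneg_left ?_ (by positivity)
            exact Real.rpow_le_rpow_of_exponent_le hm1 (by linarith))
  refine ⟨(fun β : Fin N × Fin n → ℝ => (2 : ℝ) • β) '' F, ?_, fun α hα => ?_⟩
  · have hlip : LipschitzWith 2 (fun β : Fin N × Fin n → ℝ => (2 : ℝ) • β) := by
      refine LipschitzWith.of_dist_le_mul fun x y => ?_
      rw [dist_smul₀]
      norm_num
    exact (hlip.dimH_image_le F).trans hF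
  · have hβ : (1 / 2 : ℝ) • α ∉ F := fun h1 => hα ⟨(1 / 2 : ℝ) • α, h1, by
      show (2 : ℝ) • ((1 / 2 : ℝ) • α) = α
      rw [smul_smul]
      norm_num⟩
    obtain ⟨j, hj⟩ := exists_nat_ge ‖α‖
    obtain ⟨m₀, hm⟩ := hmain _ hβ j
    refine ⟨m₀, fun m hmm x hx => ?_⟩
    have hm1 := hw m
    have hj0 : (0 : ℝ) ≤ j := Nat.cast_nonneg j
    have hwθ1 : 1 ≤ (w m) ^ θ := Real.one_le_rpow hm1 hθ0
    have hwθ : (w m) ^ θ ≤ w m := by
      calc (w m) ^ θ ≤ (w m) ^ (1 : ℝ) := Real.rpow_le_rpow_of_exponent_le hm1 hθ.le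
        _ = w m := Real.rpow_one _
    refine ⟨⌈((j : ℝ) + 2) * w m⌉₊, fun i k => ⌊x i k⌋, Nat.one_le_ceil_iff.2 (by positivity), fun i k => ?_, ?_,
      fun i k => ?_⟩
    · have h1 := abs_le.1 (hx i k)
      have h2 : |α (i, k)| ≤ j := (norm_le_pi_norm α (i, k)).trans hj
      have h4 := abs_le.1 h2
      have h5 : |α (i, k) * w m| ≤ j * w m := by
        rw [abs_mul, abs_of_pos (by linarith : (0 : ℝ) < w m)]
        exact mul_le_mul_of_nonneg_right h2 (by linarith)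
      have h6 := abs_le.1 h5
      have h7 : ((j : ℝ) + 2) * w m ≤ (⌈((j : ℝ) + 2) * w m⌉₊ : ℝ) := Nat.le_ceil _
      have h8 := Int.floor_le (x i k)
      have h9 := Int.lt_floor_add_one (x i k)
      rw [abs_le]
      constructor
      · have : -((⌈((j : ℝ) + 2) * w m⌉₊ : ℕ) : ℝ) ≤ (⌊x i k⌋ : ℝ) := by nlinarith
        exact_mod_cast this
      · have : (⌊x i k⌋ : ℝ) ≤ ((⌈((j : ℝ) + 2) * w m⌉₊ : ℕ) : ℝ) := by nlinarith
        exact_mod_cast this
    · intro hmem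
      refine absurd ?_ (not_le.2 (hm m hmm (fun i k => ⌊x i k⌋) hmem))
      rw [pi_norm_le_iff_of_nonneg (by linarith)]
      rintro ⟨i, k⟩
      rw [Pi.sub_apply, Pi.smul_apply, Pi.smul_apply, smul_eq_mul, smul_eq_mul, Real.norm_eq_abs]
      have h1 := abs_le.1 (hx i k)
      have h8 := Int.floor_le (x i k)
      have h9 := Int.lt_floor_add_one (x i k)
      show |1 / 2 * (⌊x i k⌋ : ℝ) - w m * (1 / 2 * α (i, k))| ≤ (w m) ^ θ
      rw [abs_le]
      constructor <;> nlinarith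
    · have h8 := Int.floor_le (x i k)
      have h9 := Int.lt_floor_add_one (x i k)
      rw [abs_le]
      constructor <;> linarith

/-- **Main result.** -/
theorem result (n : ℕ) (hn : 1 ≤ n) (V : Set (Fin n → ℂ)) (hV : (idealOf V).IsPrime) :
    ∃ K : ℕ, ∀ N t : ℕ, K * t < N → ∀ (w : ℕ → ℝ) (τ θ : ℝ), (∀ m, 1 ≤ w m) → 0 ≤ τ → ExpLe w τ → θ < 1 →
      (∀ p : Fin N → ℕ, (∀ i, (p i).Prime) → Function.Injective p →
        ∃ E : Set (Fin N × Fin n → ℝ), dimH E ≤ ENNReal.ofReal ((expo n N t + τ) / (1 - θ)) ∧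
          (expo n N t + τ + n * N * θ < n * N → volume E = 0) ∧
          ∀ α : Fin N × Fin n → ℝ, α ∉ E → ∃ m₀ : ℕ, ∀ m : ℕ, m₀ ≤ m → ∀ e : Fin N → Fin n → ℤ,
            (∀ i j, |(e i j : ℝ) - α (i, j) * w m| ≤ (w m) ^ θ) →
              NoAtypicalSubvariety (AlmostAllSUnitTranslates.translate (fun j => ∏ i, (p i : ℂ) ^ e i j) V)) ∧
      (0 ≤ θ → ∀ v : Fin N → AbsoluteValue ℂ ℝ,
        ∃ E : Set (Fin N × Fin n → ℝ), dimH E ≤ ENNReal.ofReal ((expo n N t + τ) / (1 - θ)) ∧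
          (expo n N t + τ + n * N * θ < n * N → volume E = 0) ∧
          ∀ α : Fin N × Fin n → ℝ, α ∉ E → ∀ B : ℝ, ∃ m₀ : ℕ, ∀ m : ℕ, m₀ ≤ m → ∀ g : Fin n → ℂ, (∀ j, g j ≠ 0) →
            (∀ i j, |Real.log (v i (g j)) - α (i, j) * w m| ≤ (w m) ^ θ) → NoAtypicalWithin v B (AlmostAllSUnitTranslates.translate g V)) := by
  obtain ⟨K, hK⟩ := AlmostAllSUnitTranslates.result n V hV
  refine ⟨K, fun N t hNt w τ θ hw hτ hwτ hθ => ?_⟩
  obtain ⟨h1, h2⟩ := hK N t hNt
  refine ⟨fun p hp hpi => ?_, fun hθ0 v => ?_⟩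
  · obtain ⟨c, hc⟩ := h1 p hp hpi
    exact integral hn (fun e => NoAtypicalSubvariety (AlmostAllSUnitTranslates.translate (fun j => ∏ i, (p i : ℂ) ^ e i j) V)) hc hw hτ hwτ hθ
  · have hall : ∀ b : ℕ, ∃ F : Set (Fin N × Fin n → ℝ), dimH F ≤ ENNReal.ofReal ((expo n N t + τ) / (1 - θ)) ∧
        ∀ α : Fin N × Fin n → ℝ, α ∉ F → ∃ m₀ : ℕ, ∀ m : ℕ, m₀ ≤ m → ∀ g : Fin n → ℂ, (∀ j, g j ≠ 0) →
          (∀ i j, |Real.log (v i (g j)) - α (i, j) * w m| ≤ (w m) ^ θ) →
            NoAtypicalWithin v ((b : ℝ) + 1) (AlmostAllSUnitTranslates.translate g V) := by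
      intro b
      obtain ⟨c, hc⟩ := h2 v ((b : ℝ) + 1)
      have hex : ∀ R : ℕ, ∃ E : Finset (Fin N → Fin n → ℤ), 1 ≤ R →
          E.card * (2 * R + 1) ^ t ≤ c * (2 * R + 1) ^ (n * N + n - 1) ∧
          ∀ e : Fin N → Fin n → ℤ, (∀ i j, |e i j| ≤ R) → e ∉ E →
            ∀ g : Fin n → ℂ, (∀ j, g j ≠ 0) →
              (∀ i j, |Real.log (v i (g j)) - e i j| ≤ (b : ℝ) + 1) →
                NoAtypicalWithin v ((b : ℝ) + 1) (AlmostAllSUnitTranslates.translate g V) := by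
        intro R
        by_cases hR : 1 ≤ R
        · obtain ⟨E, hE⟩ := hc R hR
          exact ⟨E, fun _ => hE⟩
        · exact ⟨∅, fun h => absurd h hR⟩
      choose E hE using hex
      obtain ⟨F, hF, hmain⟩ := real hn E (fun R hR => (hE R hR).1) hw hτ hwτ hθ0 hθ
      refine ⟨F, hF, fun α hα => ?_⟩
      obtain ⟨m₀, hm⟩ := hmain α hα
      refine ⟨m₀, fun m hmm g hg hgw => ?_⟩
      obtain ⟨R, e, hR, he, heE, hge⟩ := hm m hmm (fun i j => Real.log (v i (g j))) hgw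
      refine (hE R hR).2 e he heE g hg fun i j => (hge i j).trans ?_
      have : (0 : ℝ) ≤ b := Nat.cast_nonneg b
      linarith
    choose F hF hmain using hall
    have hdim : dimH (⋃ b, F b) ≤ ENNReal.ofReal ((expo n N t + τ) / (1 - θ)) := by
      rw [dimH_iUnion]
      exact iSup_le hF
    refine ⟨⋃ b, F b, hdim, null hτ hθ hdim, fun α hα B => ?_⟩
    obtain ⟨b, hb⟩ := exists_nat_ge B
    obtain ⟨m₀, hm⟩ := hmain b α fun h => hα (Set.mem_iUnion.2 ⟨b, h⟩)
    refine ⟨m₀, fun m hmm g hg hgw => ?_⟩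
    have h3 := hm m hmm g hg hgw
    intro M η hη hηB
    exact h3 M η hη fun i j => (hηB i j).trans (by linarith)

end Pool.Agent.Results.MP_b7926e_nt.TranslatesInWindows
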