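import Pool.Agent.Results.MP_b7926e_nt.FewExceptionalParameters
import Pool.Agent.V11285.FW

/-!
# No atypical intersections with torsion cosets for ALL members of the families with parameters in windows around `α v_k`

For the families of `FewExceptionalParameters`, where all but `C (log B) ^ s` of the parameters of denominator `v ≤ B` and
numerator at most `B` are good: for all `α > 0` outside a set of Hausdorff dimension `0` and all `θ < 1` ALL integers `t`
with `|t - α b ^ k| ≤ b ^ (θ k)` are good for large `k`; for all `α > 0` outside a set of dimension at most `1 / 2` all but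
finitely many convergents `t` of `α` are good.
-/

set_option autoImplicit false

namespace Pool.Agent.Results.MP_b7926e_nt.WindowsOfParameters

open Pool.Agent.Results.MP_b7926e_nt.FewExceptionalParameters (member order Trop NoAtypical)

/-- the exponent of convergence of the sequence `v` is at most `τ` -/
def ExpLe (v : ℕ → ℝ) (τ : ℝ) : Prop := ∀ t : ℝ, τ < t → Summable (fun k : ℕ => (v k) ^ (-t))

/-- The property `P` of rational numbers has no exceptions in windows and among good approximations, for most `α > 0`: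
(1) for all sequences `v ≥ 1` with exponent of convergence at most `τ`, all denominators `q_k ≤ v_k ^ c` and `θ < 1`, for
all `α > 0` outside a set of Hausdorff dimension at most `τ / (1 - θ)` and all large `k`, ALL `t = u / q_k` in lowest terms
with `|u - α v_k| ≤ v_k ^ θ` have the property (for instance all integers `t` with `|t - α v_k| ≤ v_k ^ θ`);
(2) if `τ = 0`, for instance if `v_k = b ^ k`, one set of dimension `0` serves all `θ < 1`;
(3) for all `α > 0` outside a set of dimension at most `1 / β` all but finitely many rational numbers `t = u / q` with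
`|α - t| ≤ q ^ (-β)` have the property; for `β = 2` these `t` include all convergents of `α`. -/
def AllWindows (P : ℚ → Prop) : Prop :=
  (∀ (v : ℕ → ℝ) (q : ℕ → ℕ) (τ θ c : ℝ), (∀ k, 1 ≤ v k) → 0 ≤ τ → ExpLe v τ → θ < 1 →
    (∀ k, (q k : ℝ) ≤ (v k) ^ c) →
    ∃ E : Set ℝ, dimH E ≤ ENNReal.ofReal (τ / (1 - θ)) ∧ ∀ α : ℝ, 0 < α → α ∉ E →
      ∃ k₀ : ℕ, ∀ k : ℕ, k₀ ≤ k → ∀ t : ℚ, t.den = q k → |(t.num : ℝ) - α * v k| ≤ (v k) ^ θ → P t) ∧
  (∀ (v : ℕ → ℝ) (q : ℕ → ℕ) (c : ℝ), (∀ k, 1 ≤ v k) → ExpLe v 0 → (∀ k, (q k : ℝ) ≤ (v k) ^ c) →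
    ∃ E : Set ℝ, dimH E = 0 ∧ ∀ α : ℝ, 0 < α → α ∉ E → ∀ θ : ℝ, θ < 1 →
      ∃ k₀ : ℕ, ∀ k : ℕ, k₀ ≤ k → ∀ t : ℚ, t.den = q k → |(t.num : ℝ) - α * v k| ≤ (v k) ^ θ → P t) ∧
  (∀ β : ℝ, 1 < β → ∃ E : Set ℝ, dimH E ≤ ENNReal.ofReal (1 / β) ∧ ∀ α : ℝ, 0 < α → α ∉ E →
    {t : ℚ | |α - t| ≤ (t.den : ℝ) ^ (-β) ∧ ¬ P t}.Finite)

/-- **No atypical intersections for all parameters in windows.** Let `A_1, …, A_m` be finite nonempty sets of exponents,
`c_jβ` nonzero polynomials, `X_t` the algebraic set of the torus defined by the Laurent polynomials `∑_β c_jβ(t) x^β`, and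
`α_1, …, α_M` algebraic numbers such that no linear subspace of `ℚ^n` of dimension less than `r` meets all the
tropicalizations at the `α_l`. Let `Γ ⊂ ℂ` be finite. The property '`X_t` has no atypical intersection with the cosets of
algebraic subgroups by points whose coordinates are units over `Γ`' has no exceptions in windows and among good
approximations, for most `α` (`AllWindows`). -/
theorem result :
    (∀ {n m M : ℕ} (r : ℕ) (A : Fin m → Finset (Fin n → ℤ)) (_ : ∀ j, (A j).Nonempty)
      (c : Fin m → (Fin n → ℤ) → Polynomial ℂ) (_ : ∀ j, ∀ β ∈ A j, c j β ≠ 0)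
      (α : Fin M → ℂ) (_ : ∀ l, IsAlgebraic ℚ (α l))
      (_ : ∀ L : Submodule ℚ (Fin n → ℚ), Module.finrank ℚ L < r →
        ∃ l, ∀ w ∈ L, w ∉ Trop A (order c (α l)))
      (Γ : Set ℂ) (_ : Γ.Finite), AllWindows fun t : ℚ => NoAtypical r Γ (member A c t)) ∧
    (∀ a : ℝ, 0 < a → ExpLe (fun k : ℕ => ((k : ℝ) + 1) ^ a) (1 / a)) ∧
    (∀ b : ℝ, 1 < b → ExpLe (fun k : ℕ => b ^ k) 0) := by
  refine ⟨fun {n m M} r A hA c hc α hα hgen Γ hΓ => ?_, fun a ha => Pool.Agent.Y854.GM.expLe_pow a ha,
    fun b hb => Pool.Agent.Y854.GM.expLe_geom b hb⟩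
  exact Pool.Agent.V11285.FW.allWindows (FewExceptionalParameters.result r A hA c hc α hα hgen Γ hΓ)

end Pool.Agent.Results.MP_b7926e_nt.WindowsOfParameters
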